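import Pool.Agent.Work.MP_33747a_co.Min

set_option autoImplicit false

open Pool.Agent.Work.MP_33747a_co

/-- For `n ≥ 6` and `2 ≤ k ≤ n / 5 + 2` the matrix `J` is the unique minimiser of the `k`-hafnian
over the perfect matching polytope. -/
theorem Pool.Agent.Results.MP_33747a_co.MinAtJ.result :
    ∀ n k : ℕ, 6 ≤ n → 2 ≤ k → 5 * k ≤ n + 10 →
      J n ∈ Psi n ∧ ∀ B ∈ Psi n, B ≠ J n → haf k (J n) < haf k B :=
  min_at_J
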