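import Pool.Agent.Work.MP_33747a_co.Bar.All

set_option autoImplicit false

open Pool.Agent.Work.MP_33747a_co

/-- For `n ≥ 3` and `139 n / 140 ≤ k ≤ n`, and for `n ≥ 200000` and `0.958 n ≤ k ≤ n`, the minimum
of the `k`-hafnian over the perfect matching polytope is not attained at `J`; for large `n` it is
smaller than the value at `J` by an exponential factor. -/
theorem Pool.Agent.Results.MP_33747a_co.NotAtJ.result :
    ∀ n k : ℕ, k ≤ n → (3 ≤ n ∧ 139 * n ≤ 140 * k) ∨ (200000 ≤ n ∧ 479 * n ≤ 500 * k) →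
      ∃ B ∈ Psi n, haf k B < min 1 (Real.exp (50 - (n : ℝ) / 4000)) * haf k (J n) :=
  Bar.both
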