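import Pool.Agent.Work.MP_33747a_co.S6

set_option autoImplicit false

open Pool.Agent.Work.MP_33747a_co

/-- For all `1 ≤ k ≤ n` the `k`-hafnian of every point of the perfect matching polytope is at least
the value at `J` divided by `42 (n - k + 1) exp (k √(k / n) - k ^ 2 / (2 n))`. -/
theorem Pool.Agent.Results.MP_33747a_co.StarLower.result :
    ∀ n k : ℕ, 1 ≤ k → k ≤ n → ∀ B ∈ Psi n,
      haf k (J n) ≤ 42 * ((n : ℝ) - k + 1) *
        Real.exp (k * Real.sqrt ((k : ℝ) / n) - (k : ℝ) ^ 2 / (2 * n)) * haf k B :=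
  fun _ _ hk hkn _ hB => EK.star_ratio hk hkn hB
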